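import Pool.Agent.H38.Smp.Ver

/-!
The subpower membership problem of every finite completely regular semigroup is in NP.
-/

namespace Pool.Agent.Results.MP_c4ab36_lc.InNP

open Pool.Agent.H38.NP Pool.Agent.H38.Smp

theorem result (S : Type) [Semigroup S] [Finite S] (h : CompReg S) (cd : S → ℕ)
    (hcd : Function.Injective cd) : InNP (lang (SMP cd)) := smp_np h hcd

end Pool.Agent.Results.MP_c4ab36_lc.InNP
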